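import Pool.Agent.P8H39.TI.Stm

/-!
# Package TI/HB (for helper39): harmonic decomposition
-/

set_option autoImplicit false

namespace Pool.Agent.P8H76.TI

open Finset Pool.Agent.P8H39.TI

variable {n : ℕ}

theorem card_of_mem_slice {k : ℕ} {A : Finset (Fin n)} (h : A ∈ slice n k) : A.card = k :=
  (mem_powersetCard.1 h).2

theorem mem_slice {k : ℕ} {A : Finset (Fin n)} : A ∈ slice n k ↔ A.card = k := by
  rw [Pool.Agent.P8H39.TI.slice, mem_powersetCard]
  exact ⟨fun h => h.2, fun h => ⟨subset_univ _, h⟩⟩

theorem dn_self {k : ℕ} (u : Finset (Fin n) → ℝ) {A : Finset (Fin n)} (h : A.card = k) : dn k u A = u A := by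
  subst h
  rw [dn, powersetCard_self, sum_singleton]

theorem dn_lt {k : ℕ} (u : Finset (Fin n) → ℝ) {A : Finset (Fin n)} (h : A.card < k) : dn k u A = 0 := by
  rw [dn, powersetCard_eq_empty.2 h, sum_empty]

theorem dn_dn {j m : ℕ} (hjm : j ≤ m) (u : Finset (Fin n) → ℝ) (A : Finset (Fin n)) :
    dn m (dn j u) A = ((A.card - j).choose (m - j) : ℝ) * dn j u A := by
  simp only [dn]
  rw [mul_sum]
  have h1 : ∀ Z ∈ powersetCard m A, ∑ X ∈ powersetCard j Z, u X =
      ∑ X ∈ powersetCard j A, if X ⊆ Z then u X else 0 := by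
    intro Z hZ
    rw [mem_powersetCard] at hZ
    rw [← sum_filter]
    refine sum_congr ?_ fun _ _ => rfl
    ext X
    rw [mem_filter, mem_powersetCard, mem_powersetCard]
    exact ⟨fun h => ⟨⟨h.1.trans hZ.1, h.2⟩, h.1⟩, fun h => ⟨h.2, h.1.2⟩⟩
  rw [sum_congr rfl h1, sum_comm]
  refine sum_congr rfl fun X hX => ?_
  rw [mem_powersetCard] at hX
  rw [← sum_filter, sum_const, nsmul_eq_mul, card_filter_powersetCard_subset X A m hX.1 (by rw [hX.2]; exact hjm), hX.2]

theorem dn_add (j : ℕ) (u v : Finset (Fin n) → ℝ) (A : Finset (Fin n)) :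
    dn j (fun X => u X + v X) A = dn j u A + dn j v A := by
  rw [dn, sum_add_distrib]
  rfl

theorem dn_congr {j : ℕ} {u v : Finset (Fin n) → ℝ} (A : Finset (Fin n)) (h : ∀ X ∈ slice n j, u X = v X) :
    dn j u A = dn j v A :=
  sum_congr rfl fun X hX => h X (mem_slice.2 (mem_powersetCard.1 hX).2)

theorem dn_smul (j : ℕ) (c : ℝ) (u : Finset (Fin n) → ℝ) (A : Finset (Fin n)) :
    dn j (fun X => c * u X) A = c * dn j u A := by
  rw [dn, dn, mul_sum]

theorem dn_sum (j : ℕ) {ι : Type} (s : Finset ι) (u : ι → Finset (Fin n) → ℝ) (A : Finset (Fin n)) :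
    dn j (fun X => ∑ i ∈ s, u i X) A = ∑ i ∈ s, dn j (u i) A := by
  simp only [dn]
  rw [sum_comm]

/-- the adjunction -/
theorem adj {k i : ℕ} (u f : Finset (Fin n) → ℝ) :
    ∑ A ∈ slice n k, dn i u A * f A = ∑ X ∈ slice n i, u X * up n k f X := by
  have h1 : ∀ A ∈ slice n k, dn i u A * f A = ∑ X ∈ slice n i, if X ⊆ A then u X * f A else 0 := by
    intro A _
    rw [dn, sum_mul, ← sum_filter]
    refine sum_congr ?_ fun _ _ => rfl
    ext X
    rw [mem_filter, mem_powersetCard, mem_slice]
    exact ⟨fun h => ⟨h.2, h.1⟩, fun h => ⟨h.2, h.1⟩⟩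
  rw [sum_congr rfl h1, sum_comm]
  refine sum_congr rfl fun X _ => ?_
  rw [up, mul_sum, ← sum_filter]

theorem up_congr {k : ℕ} {f g : Finset (Fin n) → ℝ} (h : ∀ A ∈ slice n k, f A = g A) (R : Finset (Fin n)) :
    up n k f R = up n k g R :=
  sum_congr rfl fun A hA => h A (mem_filter.1 hA).1

theorem up_sum {k : ℕ} {ι : Type} (s : Finset ι) (u : ι → Finset (Fin n) → ℝ) (R : Finset (Fin n)) :
    up n k (fun X => ∑ i ∈ s, u i X) R = ∑ i ∈ s, up n k (u i) R := by
  simp only [up]
  rw [sum_comm]

theorem av_congr {k : ℕ} {f g : Finset (Fin n) → ℝ} (h : ∀ A ∈ slice n k, f A = g A) (R : Finset (Fin n)) :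
    av n k f R = av n k g R :=
  sum_congr rfl fun A hA => h A (mem_filter.1 hA).1

theorem av_sum {k : ℕ} {ι : Type} (s : Finset ι) (u : ι → Finset (Fin n) → ℝ) (R : Finset (Fin n)) :
    av n k (fun X => ∑ i ∈ s, u i X) R = ∑ i ∈ s, av n k (u i) R := by
  simp only [av]
  rw [sum_comm]

/-- the part orthogonal to all `dn k g` -/
theorem exists_proj (k : ℕ) (f : Finset (Fin n) → ℝ) :
    ∃ g h : Finset (Fin n) → ℝ, (∀ A ∈ slice n (k + 1), f A = dn k g A + h A) ∧
      ∀ g' : Finset (Fin n) → ℝ, ∑ A ∈ slice n (k + 1), dn k g' A * h A = 0 := by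
  classical
  let L : (Finset (Fin n) → ℝ) →ₗ[ℝ] EuclideanSpace ℝ (Finset (Fin n)) :=
    { toFun := fun g => WithLp.toLp 2 (fun A => if A ∈ slice n (k + 1) then dn k g A else 0)
      map_add' := fun g g' => by
        ext A
        show (if A ∈ slice n (k + 1) then dn k (fun X => g X + g' X) A else 0) =
          (if A ∈ slice n (k + 1) then dn k g A else 0) + (if A ∈ slice n (k + 1) then dn k g' A else 0)
        split_ifs
        · exact dn_add k g g' A
        · rw [add_zero]
      map_smul' := fun c g => by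
        ext A
        show (if A ∈ slice n (k + 1) then dn k (fun X => c * g X) A else 0) =
          c * (if A ∈ slice n (k + 1) then dn k g A else 0)
        split_ifs
        · exact dn_smul k c g A
        · rw [mul_zero] }
  obtain ⟨y, ⟨g, rfl⟩, z, hz, hfyz⟩ := (LinearMap.range L).exists_add_mem_mem_orthogonal
    (WithLp.toLp 2 (fun A => if A ∈ slice n (k + 1) then f A else 0))
  refine ⟨g, fun A => z A, fun A hA => ?_, fun g' => ?_⟩
  · have h1 := congrArg (fun v : EuclideanSpace ℝ (Finset (Fin n)) => v A) hfyz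
    have h2 : (if A ∈ slice n (k + 1) then f A else 0) =
      (if A ∈ slice n (k + 1) then dn k g A else 0) + z A := h1
    rwa [if_pos hA, if_pos hA] at h2
  · have h1 := (Submodule.mem_orthogonal _ _).1 hz (L g') ⟨g', rfl⟩
    rw [PiLp.inner_apply] at h1
    have h2 : ∀ A : Finset (Fin n), inner ℝ ((L g') A) (z A) =
        if A ∈ slice n (k + 1) then dn k g' A * z A else 0 := by
      intro A
      show inner ℝ (if A ∈ slice n (k + 1) then dn k g' A else 0) (z A) = _
      split_ifs
      · simp [mul_comm]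
      · rw [inner_zero_left]
    rw [sum_congr rfl fun A _ => h2 A, ← sum_filter, filter_mem_eq_inter, univ_inter] at h1
    exact h1

/-- the decomposition -/
theorem decomp (k : ℕ) : ∀ f : Finset (Fin n) → ℝ, ∃ u : ℕ → Finset (Fin n) → ℝ,
    (∀ j ≤ k, Harm n j (u j)) ∧ ∀ A ∈ slice n k, f A = ∑ j ∈ range (k + 1), dn j (u j) A := by
  classical
  induction k with
  | zero =>
    intro f
    refine ⟨fun _ => f, fun j hj Y hY => ?_, fun A hA => ?_⟩
    · omega
    · rw [zero_add, sum_range_one, dn_self _ (card_of_mem_slice hA)]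
  | succ k ih =>
    intro f
    obtain ⟨g, h, hf, hh⟩ := exists_proj k f
    obtain ⟨u, hu, hg⟩ := ih g
    let w : ℕ → Finset (Fin n) → ℝ := fun j => if j ≤ k then fun X => ((k + 1 - j : ℕ) : ℝ) * u j X else h
    have hw1 : ∀ j ≤ k, w j = fun X => ((k + 1 - j : ℕ) : ℝ) * u j X := fun j hj => if_pos hj
    have hw2 : w (k + 1) = h := if_neg (by omega)
    refine ⟨w, fun j hj => ?_, fun A hA => ?_⟩
    · by_cases hjk : j ≤ k
      · rw [hw1 j hjk]
        intro Y hY
        have h1 := hu j hjk Y hY
        rw [up, ← mul_sum]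
        rw [up] at h1
        rw [h1, mul_zero]
      · have hj' : j = k + 1 := by omega
        subst hj'
        rw [hw2]
        intro Y hY
        have h1 := hh (fun Z => if Y ⊆ Z then 1 else 0)
        have h2 : ∀ A ∈ Pool.Agent.P8H39.TI.slice n (k + 1), dn k (fun Z => if Y ⊆ Z then (1 : ℝ) else 0) A * h A =
            if Y ⊆ A then ((k + 1 - Y.card : ℕ) : ℝ) * h A else 0 := by
          intro A hA
          have hAc := card_of_mem_slice hA
          rw [dn, ← sum_filter, sum_const, nsmul_eq_mul, mul_one]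
          split_ifs with hYA
          · rw [card_filter_powersetCard_subset Y A k hYA (by omega), hAc]
            congr 2
            have e : k + 1 - Y.card = (k - Y.card) + 1 := by omega
            rw [e, Nat.choose_succ_self_right]
          · have h3 : ((powersetCard k A).filter fun Z => Y ⊆ Z) = ∅ := by
              rw [filter_eq_empty_iff]
              intro Z hZ hYZ
              exact hYA (hYZ.trans (mem_powersetCard.1 hZ).1)
            rw [h3, card_empty, Nat.cast_zero, zero_mul]
        rw [sum_congr rfl h2, ← sum_filter, ← mul_sum] at h1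
        have h3 : ((k + 1 - Y.card : ℕ) : ℝ) ≠ 0 := by
          rw [Nat.cast_ne_zero]
          omega
        exact (mul_eq_zero.1 h1).resolve_left h3
    · have hAc := card_of_mem_slice hA
      rw [hf A hA, sum_range_succ, hw2, dn_self h hAc, dn_congr A hg, dn_sum]
      congr 1
      refine sum_congr rfl fun j hj => ?_
      have hjk : j ≤ k := by
        have := mem_range.1 hj
        omega
      rw [hw1 j hjk, dn_smul, dn_dn hjk, hAc]
      congr 2
      have e : k + 1 - j = (k - j) + 1 := by omega
      rw [e, Nat.choose_succ_self_right]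

/-- orthogonality -/
theorem orth (hA : S_HA) {k : ℕ} (hk : 2 * k ≤ n) {i j : ℕ} (hij : i < j) (hj : j ≤ k)
    {u v : Finset (Fin n) → ℝ} (hv : Harm n j v) : ∑ A ∈ slice n k, dn i u A * dn j v A = 0 := by
  rw [adj]
  refine sum_eq_zero fun X hX => ?_
  have hXc := card_of_mem_slice hX
  rw [(hA n k j v hk hj hv).1 X (by omega), dn_lt v (by omega), mul_zero, mul_zero]

theorem orth' (hA : S_HA) {k : ℕ} (hk : 2 * k ≤ n) {i j : ℕ} (hi : i ≤ k) (hj : j ≤ k) (hij : i ≠ j)
    {u v : Finset (Fin n) → ℝ} (hu : Harm n i u) (hv : Harm n j v) :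
    ∑ A ∈ slice n k, dn i u A * dn j v A = 0 := by
  rcases lt_or_gt_of_ne hij with h | h
  · exact orth hA hk h hj hv
  · rw [sum_congr rfl fun A _ => mul_comm _ _]
    exact orth hA hk h hi hu

theorem t_HB : S_HA → S_HB := by
  classical
  intro hA n k hk f
  obtain ⟨u, hu, hf⟩ := decomp k f
  let x : ℕ → ℝ := fun j => ∑ A ∈ slice n k, dn j (u j) A * dn j (u j) A
  -- the product of `f` with a harmonic part
  have hfj : ∀ j ≤ k, ∀ v : Finset (Fin n) → ℝ, Harm n j v → ∑ A ∈ slice n k, f A * dn j v A =
      ∑ A ∈ slice n k, dn j (u j) A * dn j v A := by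
    intro j hj v hv
    have h1 : ∀ A ∈ slice n k, f A * dn j v A = ∑ l ∈ range (k + 1), dn l (u l) A * dn j v A := by
      intro A hA'
      rw [hf A hA', sum_mul]
    rw [sum_congr rfl h1, sum_comm, sum_eq_single j]
    · intro l hl hlj
      have hlk : l ≤ k := by
        have := mem_range.1 hl
        omega
      exact orth' hA hk hlk hj hlj (hu l hlk) hv
    · intro h
      exact absurd (mem_range.2 (by omega)) h
  -- the sums over the pairs
  have hquad : ∀ (r : ℕ) (c : ℕ → ℝ) (F : Finset (Fin n) → ℝ), r ≤ k →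
      (∀ R ∈ slice n r, F R = ∑ l ∈ range (k + 1), c l * dn l (u l) R) →
      ∑ A ∈ slice n k, f A * dn r F A = ∑ l ∈ range (r + 1), ((k - l).choose (r - l) : ℝ) * c l * x l := by
    intro r c F hr hF
    have h1 : ∀ A ∈ slice n k, dn r F A = ∑ l ∈ range (r + 1), ((k - l).choose (r - l) : ℝ) * c l * dn l (u l) A := by
      intro A hA'
      have hAc := card_of_mem_slice hA'
      rw [dn_congr A hF, dn_sum]
      have h2 : range (r + 1) ⊆ range (k + 1) := range_subset_range.2 (by omega)
      rw [← sum_subset h2]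
      · refine sum_congr rfl fun l hl => ?_
        have hlr : l ≤ r := by
          have := mem_range.1 hl
          omega
        rw [dn_smul, dn_dn hlr, hAc]
        ring
      · intro l _ hl
        have hlr : r < l := by
          by_contra h
          exact hl (mem_range.2 (by omega))
        rw [dn_smul]
        have h3 : dn r (dn l (u l)) A = 0 := by
          rw [dn]
          refine sum_eq_zero fun X hX => ?_
          rw [dn_lt]
          rw [(mem_powersetCard.1 hX).2]
          exact hlr
        rw [h3, mul_zero]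
    have h4 : ∀ A ∈ slice n k, f A * dn r F A =
        ∑ l ∈ range (r + 1), ((k - l).choose (r - l) : ℝ) * c l * (f A * dn l (u l) A) := by
      intro A hA'
      rw [h1 A hA', mul_sum]
      refine sum_congr rfl fun l _ => ?_
      ring
    rw [sum_congr rfl h4, sum_comm]
    refine sum_congr rfl fun l hl => ?_
    have hlk : l ≤ k := by
      have := mem_range.1 hl
      omega
    rw [← mul_sum, hfj l hlk (u l) (hu l hlk)]
  have hfour : ∀ r, r ≤ k → ∑ R ∈ slice n r, up n k f R ^ 2 =
      ∑ j ∈ range (r + 1),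
        ((k - j).choose (r - j) : ℝ) * ((n - r - j).choose (k - r) : ℝ) * x j := by
    intro r hr
    have h1 : ∑ R ∈ slice n r, up n k f R ^ 2 = ∑ A ∈ slice n k, f A * dn r (up n k f) A := by
      rw [sum_congr rfl fun A _ => mul_comm (f A) _, adj]
      refine sum_congr rfl fun R _ => ?_
      rw [pow_two]
    rw [h1]
    refine hquad r (fun l => ((n - r - l).choose (k - r) : ℝ)) _ hr fun R hR => ?_
    have hRc := card_of_mem_slice hR
    rw [up_congr hf, up_sum]
    refine sum_congr rfl fun l hl => ?_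
    have hlk : l ≤ k := by
      have := mem_range.1 hl
      omega
    rw [(hA n k l (u l) hk hlk (hu l hlk)).1 R (by omega), hRc]
  refine ⟨x, fun j => sum_nonneg fun A _ => mul_self_nonneg _, ?_, ?_, hfour, ?_, ?_⟩
  · have h1 : ∀ A ∈ slice n k, f A ^ 2 = ∑ j ∈ range (k + 1), f A * dn j (u j) A := by
      intro A hA'
      rw [pow_two, ← mul_sum, ← hf A hA']
    symm
    rw [sum_congr rfl h1, sum_comm]
    refine sum_congr rfl fun j hj => ?_
    have hjk : j ≤ k := by
      have := mem_range.1 hj
      omega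
    rw [hfj j hjk (u j) (hu j hjk)]
  · have h1 := hfour 0 (Nat.zero_le _)
    have h2 : Pool.Agent.P8H39.TI.slice n 0 = {∅} := powersetCard_zero _
    rw [h2, sum_singleton, zero_add, sum_range_one] at h1
    have h3 : up n k f ∅ = ∑ A ∈ slice n k, f A := by
      rw [up]
      refine sum_congr ?_ fun _ _ => rfl
      rw [filter_eq_self]
      exact fun A _ => empty_subset A
    rw [h3] at h1
    rw [h1]
    simp only [Nat.sub_zero, Nat.choose_zero_right, Nat.cast_one, one_mul]
    ring
  · intro i hi
    have h1 : ∀ A ∈ slice n k, ∑ B ∈ slice n k, ((A \ B).card.choose i : ℝ) * f A * f B =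
        f A * dn i (av n k f) A := by
      intro A _
      have h2 : dn i (av n k f) A = ∑ B ∈ slice n k, ((A \ B).card.choose i : ℝ) * f B := by
        simp only [dn, av]
        have h3 : ∀ I ∈ powersetCard i A, ∑ B ∈ (slice n k).filter (fun B => Disjoint B I), f B =
            ∑ B ∈ slice n k, if Disjoint B I then f B else 0 := fun I _ => by rw [sum_filter]
        rw [sum_congr rfl h3, sum_comm]
        refine sum_congr rfl fun B _ => ?_
        rw [← sum_filter, sum_const, nsmul_eq_mul, ← card_powersetCard]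
        congr 3
        ext I
        rw [mem_filter, mem_powersetCard, mem_powersetCard, subset_sdiff]
        exact ⟨fun h => ⟨⟨h.1.1, h.2.symm⟩, h.1.2⟩, fun h => ⟨⟨h.1.1, h.2⟩, h.1.2.symm⟩⟩
      rw [h2, mul_sum]
      refine sum_congr rfl fun B _ => ?_
      ring
    rw [sum_congr rfl h1, hquad i (fun l => (-1 : ℝ) ^ l * ((n - i - l).choose (k - l) : ℝ)) _ hi]
    · refine sum_congr rfl fun l _ => ?_
      ring
    · intro R hR
      have hRc := card_of_mem_slice hR
      rw [av_congr hf, av_sum]
      refine sum_congr rfl fun l hl => ?_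
      have hlk : l ≤ k := by
        have := mem_range.1 hl
        omega
      rw [(hA n k l (u l) hk hlk (hu l hlk)).2 R (by omega), hRc]
  · rintro t ht ⟨g, hg⟩ j htj hjk
    obtain ⟨v, hv, hgv⟩ := decomp t g
    show ∑ A ∈ slice n k, dn j (u j) A * dn j (u j) A = 0
    rw [← hfj j hjk (u j) (hu j hjk)]
    have h1 : ∀ A ∈ slice n k, f A * dn j (u j) A =
        ∑ i ∈ range (t + 1), ((k - i).choose (t - i) : ℝ) * (dn i (v i) A * dn j (u j) A) := by
      intro A hA'
      have hAc := card_of_mem_slice hA'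
      rw [hg A hA', dn_congr A hgv, dn_sum, sum_mul]
      refine sum_congr rfl fun i hi => ?_
      have hit : i ≤ t := by
        have := mem_range.1 hi
        omega
      rw [dn_dn hit, hAc]
      ring
    rw [sum_congr rfl h1, sum_comm]
    refine sum_eq_zero fun i hi => ?_
    have hit : i ≤ t := by
      have := mem_range.1 hi
      omega
    rw [← mul_sum, orth hA hk (by omega : i < j) hjk (hu j hjk), mul_zero]

end Pool.Agent.P8H76.TI
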