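import Pool.Agent.P8H39.TI.Stm

/-!
# Package TI/NUM (for helper39): Lagrange interpolation
-/

set_option autoImplicit false

namespace Pool.Agent.P8H76.TI

open Finset Polynomial Pool.Agent.P8H39.TI

variable {n k t : ℕ}

theorem y_zero : y n 0 = 0 := by simp [y]

theorem y_lt (hk : 2 * k ≤ n) {l j : ℕ} (hlj : l < j) (hj : j ≤ k) : y n l < y n j := by
  have h1 : (l : ℝ) + 1 ≤ j := by exact_mod_cast hlj
  have h2 : (j : ℝ) ≤ k := by exact_mod_cast hj
  have h3 : 2 * (k : ℝ) ≤ n := by exact_mod_cast hk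
  have h4 : y n j - y n l = ((j : ℝ) - l) * ((n : ℝ) + 1 - j - l) := by
    simp only [y]
    ring
  have h5 : 0 < ((j : ℝ) - l) * ((n : ℝ) + 1 - j - l) := mul_pos (by linarith) (by linarith)
  linarith

theorem y_le (hk : 2 * k ≤ n) {l j : ℕ} (hlj : l ≤ j) (hj : j ≤ k) : y n l ≤ y n j := by
  rcases hlj.eq_or_lt with h | h
  · rw [h]
  · exact (y_lt hk h hj).le

theorem y_pos (hk : 2 * k ≤ n) {j : ℕ} (h1 : 1 ≤ j) (hj : j ≤ k) : 0 < y n j := by
  have := y_lt hk h1 hj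
  rwa [y_zero] at this

theorem w_pos (j : ℕ) : 0 < w n k j := by
  rw [w]
  exact div_pos (by exact_mod_cast Nat.factorial_pos _) (by exact_mod_cast Nat.factorial_pos _)

theorem injOn (hk : 2 * k ≤ n) (htk : t < k) : Set.InjOn (y n) (Icc 1 t : Finset ℕ) := by
  intro a ha b hb hab
  rw [mem_coe, mem_Icc] at ha hb
  rcases lt_trichotomy a b with h | h | h
  · exact absurd hab (y_lt hk h (by omega)).ne
  · exact h
  · exact absurd hab (y_lt hk h (by omega)).ne'

theorem eval_basis (x : ℝ) (i : ℕ) : eval x (Lagrange.basis (Icc 1 t) (y n) i) =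
    ∏ l ∈ (Icc 1 t).erase i, ((y n i - y n l)⁻¹ * (x - y n l)) := by
  rw [Lagrange.basis, eval_prod]
  refine prod_congr rfl fun l _ => ?_
  rw [Lagrange.basisDivisor]
  simp

/-- the values `A_i = ev P_i 0` -/
noncomputable def AA (n k t i : ℕ) : ℝ :=
  w n k 0 * ((-1 : ℝ) ^ (i + 1) / w n k i * eval 0 (Lagrange.basis (Icc 1 t) (y n) i))

theorem sign_prod {i : ℕ} (h1 : 1 ≤ i) (hi : i ≤ t) :
    ∏ l ∈ (Icc 1 t).erase i, (if l < i then (-1 : ℝ) else 1) = (-1 : ℝ) ^ (i + 1) := by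
  rw [prod_ite, prod_const_one, mul_one, prod_const]
  have h2 : ((Icc 1 t).erase i).filter (fun l => l < i) = Ico 1 i := by
    ext l
    rw [mem_filter, mem_erase, mem_Icc, mem_Ico]
    omega
  rw [h2, Nat.card_Ico]
  obtain ⟨m, rfl⟩ : ∃ m, i = m + 1 := ⟨i - 1, by omega⟩
  rw [Nat.add_sub_cancel, pow_succ, pow_succ]
  ring

theorem AA_nonneg (hk : 2 * k ≤ n) (htk : t < k) {i : ℕ} (h1 : 1 ≤ i) (hi : i ≤ t) : 0 ≤ AA n k t i := by
  rw [AA, eval_basis, div_mul_eq_mul_div, ← sign_prod h1 hi, ← prod_mul_distrib]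
  refine mul_nonneg (w_pos _).le (div_nonneg ?_ (w_pos _).le)
  refine prod_nonneg fun l hl => ?_
  rw [mem_erase, mem_Icc] at hl
  have hl0 : 0 < y n l := y_pos hk hl.2.1 (by omega)
  split_ifs with h
  · have h3 := y_lt hk h (by omega : i ≤ k)
    have h4 : 0 < (y n i - y n l)⁻¹ := inv_pos.2 (by linarith)
    have h5 : (-1 : ℝ) * ((y n i - y n l)⁻¹ * (0 - y n l)) = (y n i - y n l)⁻¹ * y n l := by ring
    rw [h5]
    positivity
  · have h3 := y_lt hk (by omega : i < l) (by omega : l ≤ k)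
    have h4 : 0 < (y n l - y n i)⁻¹ := inv_pos.2 (by linarith)
    have h5 : (1 : ℝ) * ((y n i - y n l)⁻¹ * (0 - y n l)) = (y n l - y n i)⁻¹ * y n l := by
      rw [← neg_sub (y n l) (y n i), inv_neg]
      ring
    rw [h5]
    positivity

/-- the constant `K_j` -/
noncomputable def KK (n k t j : ℕ) : ℝ := w n k j / w n k 0 * ∏ l ∈ Icc 1 t, ((y n j - y n l) / y n l)

theorem KK_nonneg (hk : 2 * k ≤ n) {j : ℕ} (htj : t < j) (hj : j ≤ k) : 0 ≤ KK n k t j := by
  rw [KK]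
  refine mul_nonneg (div_nonneg (w_pos _).le (w_pos _).le) (prod_nonneg fun l hl => ?_)
  rw [mem_Icc] at hl
  have h1 := y_pos hk hl.1 (by omega : l ≤ k)
  have h2 := y_lt hk (by omega : l < j) hj
  exact div_nonneg (by linarith) h1.le

/-- the quotients `r_i` -/
noncomputable def rr (n j i : ℕ) : ℝ := y n i / (y n j - y n i)

theorem ev_base (hk : 2 * k ≤ n) {j : ℕ} (htj : t < j) (hj : j ≤ k) {i : ℕ} (h1 : 1 ≤ i) (hi : i ≤ t) :
    (-1 : ℝ) ^ j * w n k j * ((-1 : ℝ) ^ (i + 1) / w n k i * eval (y n j) (Lagrange.basis (Icc 1 t) (y n) i)) =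
      (-1 : ℝ) ^ (j + t + 1) * (KK n k t j * (rr n j i * AA n k t i)) := by
  have hyi := y_pos hk h1 (by omega : i ≤ k)
  have hji := y_lt hk (by omega : i < j) hj
  have hmem : i ∈ Icc 1 t := mem_Icc.2 ⟨h1, hi⟩
  have e1 : eval (y n j) (Lagrange.basis (Icc 1 t) (y n) i) = eval 0 (Lagrange.basis (Icc 1 t) (y n) i) *
      ∏ l ∈ (Icc 1 t).erase i, ((-1 : ℝ) * ((y n j - y n l) / y n l)) := by
    rw [eval_basis, eval_basis, ← prod_mul_distrib]
    refine prod_congr rfl fun l hl => ?_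
    rw [mem_erase, mem_Icc] at hl
    have hl0 := y_pos hk hl.2.1 (by omega : l ≤ k)
    field_simp
    ring
  rw [prod_mul_distrib, prod_const, card_erase_of_mem hmem, Nat.card_Icc, Nat.add_sub_cancel] at e1
  have e2 : ∏ l ∈ Icc 1 t, ((y n j - y n l) / y n l) =
      (y n j - y n i) / y n i * ∏ l ∈ (Icc 1 t).erase i, ((y n j - y n l) / y n l) :=
    (mul_prod_erase _ _ hmem).symm
  have h0 := (w_pos (n := n) (k := k) 0).ne'
  have h2 : y n j - y n i ≠ 0 := by
    have : 0 < y n j - y n i := by linarith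
    exact this.ne'
  have e3 : (-1 : ℝ) ^ (j + t + 1) = (-1 : ℝ) ^ j * (-1 : ℝ) ^ (t - 1) := by
    obtain ⟨m, hm⟩ : ∃ m, t = m + 1 := ⟨t - 1, by omega⟩
    rw [hm, Nat.add_sub_cancel]
    rw [show j + (m + 1) + 1 = j + m + 2 by ring, pow_add, pow_add]
    norm_num
  rw [e1, e3, KK, e2, AA, rr]
  field_simp

/-- interpolation -/
noncomputable def PP (n k t : ℕ) (θ : ℕ → ℝ) : ℝ[X] :=
  Lagrange.interpolate (Icc 1 t) (y n) fun i => θ i * ((-1 : ℝ) ^ (i + 1) / w n k i)

theorem ev_PP (θ : ℕ → ℝ) (j : ℕ) : ev n k (PP n k t θ) j = ∑ i ∈ Icc 1 t, θ i *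
    ((-1 : ℝ) ^ j * w n k j * ((-1 : ℝ) ^ (i + 1) / w n k i * eval (y n j) (Lagrange.basis (Icc 1 t) (y n) i))) := by
  rw [ev, PP, Lagrange.interpolate_apply, eval_finsetSum, mul_sum]
  refine sum_congr rfl fun i _ => ?_
  rw [eval_mul, eval_C]
  ring

theorem ev_PP_zero (θ : ℕ → ℝ) : ev n k (PP n k t θ) 0 = ∑ i ∈ Icc 1 t, θ i * AA n k t i := by
  rw [ev_PP]
  refine sum_congr rfl fun i _ => ?_
  rw [pow_zero, one_mul, y_zero, AA]

theorem ev_PP_big (hk : 2 * k ≤ n) {j : ℕ} (htj : t < j) (hj : j ≤ k) (θ : ℕ → ℝ) :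
    ev n k (PP n k t θ) j = (-1 : ℝ) ^ (j + t + 1) * (KK n k t j *
      ∑ i ∈ Icc 1 t, θ i * (rr n j i * AA n k t i)) := by
  rw [ev_PP, mul_sum, mul_sum]
  refine sum_congr rfl fun i hi => ?_
  rw [mem_Icc] at hi
  rw [ev_base hk htj hj hi.1 hi.2]
  ring

theorem ev_PP_node (hk : 2 * k ≤ n) (htk : t < k) {l : ℕ} (h1 : 1 ≤ l) (hl : l ≤ t) (θ : ℕ → ℝ) :
    ev n k (PP n k t θ) l = - θ l := by
  rw [ev, PP, Lagrange.eval_interpolate_at_node _ (injOn hk htk) (mem_Icc.2 ⟨h1, hl⟩)]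
  have h2 := (w_pos (n := n) (k := k) l).ne'
  have h3 : (-1 : ℝ) ^ l * (-1 : ℝ) ^ l = 1 := by rw [← mul_pow]; norm_num
  rw [pow_succ]
  field_simp
  linear_combination (-(θ l)) * h3

theorem deg_PP (hk : 2 * k ≤ n) (htk : t < k) (θ : ℕ → ℝ) : (PP n k t θ).degree < (t : WithBot ℕ) := by
  have := Lagrange.degree_interpolate_lt (fun i => θ i * ((-1 : ℝ) ^ (i + 1) / w n k i)) (injOn (n := n) hk htk)
  rwa [Nat.card_Icc, Nat.add_sub_cancel] at this

theorem t_NUM : S_WIL → S_NUM := by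
  classical
  intro hW n k t s ht htk hn hst
  have hk : 2 * k ≤ n := by
    obtain ⟨κ, rfl⟩ : ∃ κ, k = t + κ := ⟨k - t, by omega⟩
    obtain ⟨m, rfl⟩ : ∃ m, t = m + 1 := ⟨t - 1, by omega⟩
    obtain ⟨c, rfl⟩ : ∃ c, κ = c + 1 := ⟨κ - 1, by omega⟩
    have e : m + 1 + (c + 1) - (m + 1) = c + 1 := by omega
    rw [e] at hn
    nlinarith [Nat.zero_le (m * c)]
  obtain ⟨Q, hQd, hQ1, hQ2⟩ := hW n k t ht htk hn
  let θ : ℕ → ℝ := fun i => if i ≤ s then 1 else 0
  -- `Q` is the sum of all basis polynomials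
  have hQ : Q = PP n k t (fun _ => 1) := by
    refine Lagrange.eq_interpolate_of_eval_eq _ (injOn hk htk) ?_ fun i hi => ?_
    · rwa [Nat.card_Icc, Nat.add_sub_cancel]
    · rw [mem_Icc] at hi
      have h1 := hQ1 i hi.1 hi.2
      rw [ev] at h1
      have h2 := (w_pos (n := n) (k := k) i).ne'
      have h3 : (-1 : ℝ) ^ i * (-1 : ℝ) ^ i = 1 := by rw [← mul_pow]; norm_num
      rw [one_mul, pow_succ, eq_div_iff h2]
      linear_combination (-1 : ℝ) ^ i * h1 - (w n k i * eval (y n i) Q) * h3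
  have hA : ∀ i ∈ Icc 1 t, 0 ≤ AA n k t i := fun i hi => by
    rw [mem_Icc] at hi
    exact AA_nonneg hk htk hi.1 hi.2
  have hθ : ∀ i, 0 ≤ θ i := fun i => by
    show (0 : ℝ) ≤ if i ≤ s then 1 else 0
    split_ifs <;> norm_num
  have hP0 : 0 ≤ ev n k (PP n k t θ) 0 := by
    rw [ev_PP_zero]
    exact sum_nonneg fun i hi => mul_nonneg (hθ i) (hA i hi)
  refine ⟨PP n k t θ, Q, deg_PP hk htk θ, hQd, hQ1, ?_, ?_, hP0, ?_, ?_⟩
  · intro j h1 hj
    rw [ev_PP_node hk htk h1 (hj.trans hst)]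
    show -(if j ≤ s then (1 : ℝ) else 0) = -1
    rw [if_pos hj]
  · intro j h1 hj hjt
    rw [ev_PP_node hk htk h1 hjt]
    show -(if j ≤ s then (1 : ℝ) else 0) = 0
    rw [if_neg (by omega), neg_zero]
  · rw [hQ, ev_PP_zero]
    exact sum_nonneg fun i hi => mul_nonneg zero_le_one (hA i hi)
  · intro j htj hj
    have hWj := hQ2 j htj hj
    have hK := KK_nonneg (n := n) hk htj hj
    have hr : ∀ i ∈ Icc 1 t, 0 ≤ rr n j i := fun i hi => by
      rw [mem_Icc] at hi
      have h1 := y_pos hk hi.1 (by omega : i ≤ k)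
      have h2 := y_lt hk (by omega : i < j) hj
      exact div_nonneg h1.le (by linarith)
    have hR1 : 0 ≤ ∑ i ∈ Icc 1 t, θ i * (rr n j i * AA n k t i) :=
      sum_nonneg fun i hi => mul_nonneg (hθ i) (mul_nonneg (hr i hi) (hA i hi))
    have hQ0 : 0 ≤ ev n k Q 0 := by
      rw [hQ, ev_PP_zero]
      exact sum_nonneg fun i hi => mul_nonneg zero_le_one (hA i hi)
    rcases Nat.even_or_odd (j + t + 1) with hpar | hpar
    · -- sign `+`
      have hPj := ev_PP_big (n := n) hk htj hj θ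
      have hQj := ev_PP_big (n := n) hk htj hj (fun _ => 1)
      rw [hpar.neg_one_pow, one_mul] at hPj hQj
      rw [hQ] at hWj hQ0 ⊢
      rw [ev_PP_zero] at hP0 hQ0
      rw [hPj, hQj, ev_PP_zero, ev_PP_zero]
      -- split the sums
      have hsplit : ∀ F : ℕ → ℝ, ∑ i ∈ Icc 1 t, (1 : ℝ) * F i =
          ∑ i ∈ Icc 1 t, θ i * F i + ∑ i ∈ Icc 1 t, (1 - θ i) * F i := fun F => by
        rw [← sum_add_distrib]
        refine sum_congr rfl fun i _ => ?_
        ring
      have hρ0 : 0 ≤ rr n j s := by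
        have h1 := y_lt hk (by omega : s < j) hj
        have h2 : 0 ≤ y n s := by
          have := y_le hk (Nat.zero_le s) (by omega : s ≤ k)
          rwa [y_zero] at this
        exact div_nonneg h2 (by linarith)
      have h1 : ∑ i ∈ Icc 1 t, θ i * (rr n j i * AA n k t i) ≤ rr n j s * ∑ i ∈ Icc 1 t, θ i * AA n k t i := by
        rw [mul_sum]
        refine sum_le_sum fun i hi => ?_
        have hi' := mem_Icc.1 hi
        show (if i ≤ s then (1 : ℝ) else 0) * _ ≤ rr n j s * ((if i ≤ s then (1 : ℝ) else 0) * _)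
        split_ifs with his
        · rw [one_mul, one_mul]
          refine mul_le_mul_of_nonneg_right ?_ (hA i hi)
          have h3 := y_le hk his (by omega : s ≤ k)
          have h4 := y_lt hk (by omega : s < j) hj
          have h5 := y_pos hk hi'.1 (by omega : i ≤ k)
          exact div_le_div₀ (by linarith) h3 (by linarith) (by linarith)
        · rw [zero_mul, zero_mul, mul_zero]
      have h2 : rr n j s * ∑ i ∈ Icc 1 t, (1 - θ i) * AA n k t i ≤
          ∑ i ∈ Icc 1 t, (1 - θ i) * (rr n j i * AA n k t i) := by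
        rw [mul_sum]
        refine sum_le_sum fun i hi => ?_
        have hi' := mem_Icc.1 hi
        show rr n j s * ((1 - (if i ≤ s then (1 : ℝ) else 0)) * _) ≤ (1 - (if i ≤ s then (1 : ℝ) else 0)) * _
        split_ifs with his
        · rw [sub_self, zero_mul, zero_mul, mul_zero]
        · rw [sub_zero, one_mul, one_mul]
          refine mul_le_mul_of_nonneg_right ?_ (hA i hi)
          have h3 := y_le hk (by omega : s ≤ i) (by omega : i ≤ k)
          have h4 := y_lt hk (by omega : i < j) hj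
          have h5 := y_pos hk hi'.1 (by omega : i ≤ k)
          exact div_le_div₀ h5.le h3 (by linarith) (by linarith)
      have hS2 : 0 ≤ ∑ i ∈ Icc 1 t, (1 - θ i) * AA n k t i := sum_nonneg fun i hi => by
        refine mul_nonneg ?_ (hA i hi)
        show (0 : ℝ) ≤ 1 - (if i ≤ s then (1 : ℝ) else 0)
        split_ifs <;> norm_num
      have hR2 : 0 ≤ ∑ i ∈ Icc 1 t, (1 - θ i) * (rr n j i * AA n k t i) := sum_nonneg fun i hi => by
        refine mul_nonneg ?_ (mul_nonneg (hr i hi) (hA i hi))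
        show (0 : ℝ) ≤ 1 - (if i ≤ s then (1 : ℝ) else 0)
        split_ifs <;> norm_num
      rw [hsplit (fun i => rr n j i * AA n k t i), hsplit (fun i => AA n k t i)]
      generalize ∑ i ∈ Icc 1 t, θ i * (rr n j i * AA n k t i) = R1 at *
      generalize ∑ i ∈ Icc 1 t, (1 - θ i) * (rr n j i * AA n k t i) = R2 at *
      generalize ∑ i ∈ Icc 1 t, θ i * AA n k t i = a at *
      generalize ∑ i ∈ Icc 1 t, (1 - θ i) * AA n k t i = S2 at *
      generalize KK n k t j = K at *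
      generalize rr n j s = ρ at *
      -- `K R1 (1 + a + S2) ≤ (1 + a) (1 + K (R1 + R2))`
      have h3 : R1 * S2 ≤ a * R2 := by
        calc R1 * S2 ≤ (ρ * a) * S2 := mul_le_mul_of_nonneg_right h1 hS2
          _ = a * (ρ * S2) := by ring
          _ ≤ a * R2 := mul_le_mul_of_nonneg_left h2 hP0
      have h4 : K * (R1 * S2) ≤ K * (a * R2) := mul_le_mul_of_nonneg_left h3 hK
      have h5 : 0 ≤ K * R2 := mul_nonneg hK hR2
      nlinarith
    · -- sign `-`
      have hPj : ev n k (PP n k t θ) j ≤ 0 := by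
        rw [ev_PP_big hk htj hj, hpar.neg_one_pow]
        have := mul_nonneg hK hR1
        linarith
      have h1 : ev n k (PP n k t θ) j * (1 + ev n k Q 0) ≤ 0 :=
        mul_nonpos_of_nonpos_of_nonneg hPj (by linarith)
      have h2 : 0 ≤ (1 + ev n k (PP n k t θ) 0) * (1 + ev n k Q j) := mul_nonneg (by linarith) (by linarith)
      linarith

end Pool.Agent.P8H76.TI
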